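import Mathlib

/-! Symmetric integral matrices with entries `0, 1, 2` and even constant row sums whose restriction
to the orthogonal complement of the all-ones vector has small spread: the combinatorial part. -/

namespace Pool.Agent.SP97

open Finset

variable {V : Type} [Fintype V] [DecidableEq V]

/-- The squared distance of the rows `i` and `j` outside `i`, `j`. -/
def Nn (W : V → V → ℤ) (i j : V) : ℤ := ∑ k, if k = i ∨ k = j then 0 else (W k i - W k j) ^ 2

lemma Nn_nonneg (W : V → V → ℤ) (i j : V) : 0 ≤ Nn W i j :=
  sum_nonneg fun k _ => by split_ifs <;> positivity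

lemma Nn_zero {W : V → V → ℤ} {i j : V} (h : Nn W i j = 0) (k : V) (hi : k ≠ i) (hj : k ≠ j) :
    W k i = W k j := by
  have := (sum_eq_zero_iff_of_nonneg (fun k _ => by split_ifs <;> positivity)).1 h k (mem_univ k)
  rw [if_neg (by simp [hi, hj])] at this
  have := pow_eq_zero_iff (two_ne_zero) |>.1 this
  omega

lemma sum_ite_pair {M : Type*} [AddCommGroup M] (f : V → M) {i j : V} (hij : i ≠ j) :
    ∑ k, (if k = i ∨ k = j then 0 else f k) = ∑ k, f k - f i - f j := by
  have : ∀ k, (if k = i ∨ k = j then 0 else f k) =
      f k - (if k = i then f k else 0) - (if k = j then f k else 0) := by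
    intro k
    by_cases h1 : k = i
    · subst h1; simp [hij]
    · by_cases h2 : k = j
      · subst h2; simp [h1]
      · simp [h1, h2]
  rw [sum_congr rfl fun k _ => this k, sum_sub_distrib, sum_sub_distrib, sum_ite_eq', sum_ite_eq',
    if_pos (mem_univ _), if_pos (mem_univ _)]

lemma Nn_even {W : V → V → ℤ} (hs : ∀ i j, W i j = W j i) (hd : ∀ i, W i i = 0) {o : V → ℤ}
    (ho : ∀ i, ∑ j, W i j = 2 * o i) {i j : V} (hij : i ≠ j) : 2 ∣ Nn W i j := by
  have h1 : (2 : ℤ) ∣ Nn W i j - ∑ k, (if k = i ∨ k = j then 0 else (W k i - W k j)) := by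
    unfold Nn
    rw [← sum_sub_distrib]
    apply dvd_sum
    intro k _
    split_ifs with h
    · simp
    · have := Int.even_mul_pred_self (W k i - W k j)
      rw [even_iff_two_dvd] at this
      have e : (W k i - W k j) ^ 2 - (W k i - W k j) = (W k i - W k j) * (W k i - W k j - 1) := by
        ring
      rw [e]; exact this
  have h2 : ∑ k, (if k = i ∨ k = j then 0 else (W k i - W k j)) = 2 * (o i - o j) := by
    rw [sum_ite_pair (fun k => W k i - W k j) hij, sum_sub_distrib]
    have e1 : ∑ k, W k i = 2 * o i := by rw [← ho]; exact sum_congr rfl fun k _ => hs k i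
    have e2 : ∑ k, W k j = 2 * o j := by rw [← ho]; exact sum_congr rfl fun k _ => hs k j
    rw [e1, e2, hd, hd, hs j i]
    ring
  rw [h2] at h1
  have : (2 : ℤ) ∣ 2 * (o i - o j) := dvd_mul_right _ _
  have := dvd_add h1 this
  simpa using this

/-- The left side of the basic inequality. -/
noncomputable def lhs (W : V → V → ℤ) (o : V → ℤ) (c : ℝ) (i j : V) : ℝ :=
  (Nn W i j : ℝ) + (2 * o i + W i j - c) ^ 2 + (2 * o j + W i j - c) ^ 2

theorem classify {W : V → V → ℤ} (hs : ∀ i j, W i j = W j i) (hd : ∀ i, W i i = 0)
    (h0 : ∀ i j, 0 ≤ W i j) (h2 : ∀ i j, W i j ≤ 2) {o : V → ℤ}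
    (ho : ∀ i, ∑ j, W i j = 2 * o i) (hn : 3 ≤ Fintype.card V) {c : ℝ}
    (H : ∀ i j, i ≠ j → lhs W o c i j ≤ 5 / 2) :
    (∃ t : ℤ, ∀ i j, i ≠ j → W i j = t) ∨
    ((∀ i j, i ≠ j → W i j ≤ 1) ∧ ∀ i, 2 * o i + 2 = Fintype.card V) ∨
    ((∀ i j, i ≠ j → 1 ≤ W i j) ∧ ∀ i, 2 * o i = Fintype.card V) ∨
    (Fintype.card V = 5 ∧ (∃ i j, i ≠ j ∧ lhs W o c i j = 5 / 2) ∧
      (((∀ i j, i ≠ j → W i j ≤ 1) ∧ ∀ i, o i = 1) ∨
        ((∀ i j, i ≠ j → 1 ≤ W i j) ∧ ∀ i, o i = 3))) := by
  classical
  have Hr : ∀ i j, i ≠ j → (Nn W i j : ℝ) + (2 * o i + W i j - c) ^ 2 +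
      (2 * o j + W i j - c) ^ 2 ≤ 5 / 2 := H
  -- all `o i` are equal
  have heq : ∀ i j, o i = o j := by
    intro i j
    by_contra hne
    have hij : i ≠ j := fun h => hne (by rw [h])
    have h := Hr i j hij
    have h1 : (1 : ℝ) ≤ ((o i : ℝ) - o j) ^ 2 := by
      have : (1 : ℤ) ≤ (o i - o j) ^ 2 := by
        have : 0 < (o i - o j) ^ 2 := by
          have : o i - o j ≠ 0 := sub_ne_zero.2 hne
          positivity
        omega
      exact_mod_cast this
    have h3 : (Nn W i j : ℝ) < 1 := by
      nlinarith [sq_nonneg ((2 * (o i : ℝ) + W i j - c) + (2 * o j + W i j - c))]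
    have h4 : Nn W i j = 0 := by
      have h5 : Nn W i j < 1 := by exact_mod_cast h3
      have := Nn_nonneg W i j
      omega
    apply hne
    have h5 : ∑ k, W i k - ∑ k, W j k = 0 := by
      rw [← sum_sub_distrib]
      have h6 := sum_ite_pair (fun k => W i k - W j k) hij
      have h7 : ∑ k, (if k = i ∨ k = j then 0 else (W i k - W j k)) = 0 := by
        apply sum_eq_zero
        intro k _
        split_ifs with h
        · rfl
        · push Not at h
          have := Nn_zero h4 k h.1 h.2
          rw [hs i k, hs j k, this]; ring
      rw [h7] at h6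
      simp only [hd] at h6
      rw [hs j i] at h6
      linarith
    rw [ho, ho] at h5
    linarith
  obtain ⟨v0⟩ : Nonempty V := Fintype.card_pos_iff.1 (by omega)
  obtain ⟨q, hq⟩ : ∃ q : ℤ, ∀ i, o i = q := ⟨o v0, fun i => heq i v0⟩
  set n : ℤ := (Fintype.card V : ℤ) with hnn
  set g : ℝ := c - 2 * q with hg
  have HB : ∀ i j, i ≠ j → (Nn W i j : ℝ) + 2 * (W i j - g) ^ 2 ≤ 5 / 2 := by
    intro i j hij
    have := Hr i j hij
    rw [hq, hq] at this
    have e : (2 * (q : ℝ) + W i j - c) = W i j - g := by rw [hg]; ring
    rw [e] at this
    linarith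
  have hN : ∀ i j, i ≠ j → Nn W i j = 0 ∨ Nn W i j = 2 := by
    intro i j hij
    have h1 := HB i j hij
    have h3 : (Nn W i j : ℝ) < 3 := by nlinarith [sq_nonneg ((W i j : ℝ) - g)]
    have h4 : Nn W i j < 3 := by exact_mod_cast h3
    have h5 := Nn_nonneg W i j
    have h6 := Nn_even hs hd ho hij
    omega
  -- the constant case
  have hconst : (∀ i j, i ≠ j → Nn W i j = 0) → ∃ t : ℤ, ∀ i j, i ≠ j → W i j = t := by
    intro hz
    have h3 : ∀ i j k, i ≠ j → k ≠ i → k ≠ j → W k i = W k j := fun i j k hij hi hj =>
      Nn_zero (hz i j hij) k hi hj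
    have h4 : ∀ i j k, i ≠ k → j ≠ k → W i k = W j k := by
      intro i j k hi hj
      by_cases hij : i = j
      · rw [hij]
      · rw [hs i k, hs j k]; exact h3 i j k hij hi.symm hj.symm
    obtain ⟨a, b, hab⟩ := Fintype.exists_pair_of_one_lt_card (show 1 < Fintype.card V by omega)
    refine ⟨W a b, fun i j hij => ?_⟩
    -- W i j = W x j ...
    by_cases h5 : j = b
    · subst h5; exact h4 i a j hij hab
    · by_cases h6 : i = b
      · subst h6
        -- W b j
        rw [hs i j]
        by_cases h7 : j = a
        · rw [h7]
        · exact h4 j a i h5 hab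
      · rw [h3 j b i h5 hij h6]
        exact h4 i a b h6 hab
  by_cases hall : ∀ i j, i ≠ j → Nn W i j = 0
  · exact Or.inl (hconst hall)
  right
  push Not at hall
  obtain ⟨a, b, hab, hNab0⟩ := hall
  have hNab : Nn W a b = 2 := (hN a b hab).resolve_left hNab0
  by_cases hhalf : ∃ t : ℤ, g = t + 1 / 2
  · -- case B
    obtain ⟨t, ht⟩ := hhalf
    have hW : ∀ i j, i ≠ j → W i j = t ∨ W i j = t + 1 := by
      intro i j hij
      have h1 := HB i j hij
      have h3 : ((W i j : ℝ) - g) ^ 2 ≤ 5 / 4 := by
        have := Nn_nonneg W i j
        have : (0 : ℝ) ≤ Nn W i j := by exact_mod_cast this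
        linarith
      have h4 : ((W i j : ℝ) - g) ^ 2 < (3 / 2) ^ 2 := by linarith
      have h5 := abs_lt_of_sq_lt_sq h4 (by norm_num)
      rw [abs_lt, ht] at h5
      have h6 : ((t : ℝ) - 1) < W i j := by linarith [h5.1]
      have h7 : (W i j : ℝ) < t + 2 := by linarith [h5.2]
      have h8 : t - 1 < W i j := by exact_mod_cast h6
      have h9 : W i j < t + 2 := by exact_mod_cast h7
      omega
    -- the matrix `T`
    set T : V → V → ℤ := fun i j => if i = j then 0 else W i j - t with hT
    have hTs : ∀ i j, T i j = T j i := by
      intro i j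
      simp only [hT]
      by_cases h : i = j
      · simp [h]
      · rw [if_neg h, if_neg (Ne.symm h), hs]
    have hT01 : ∀ i j, T i j = 0 ∨ T i j = 1 := by
      intro i j
      simp only [hT]
      by_cases h : i = j
      · simp [h]
      · rw [if_neg h]
        rcases hW i j h with h1 | h1 <;> omega
    have hTsq : ∀ i j, T i j ^ 2 = T i j := by
      intro i j
      rcases hT01 i j with h | h <;> rw [h] <;> norm_num
    set k : ℤ := 2 * q - t * (n - 1) with hk
    have hrow : ∀ i, ∑ j, T i j = k := by
      intro i
      have e : ∀ j, T i j = W i j - (t - (if i = j then t else 0)) := by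
        intro j
        simp only [hT]
        by_cases h : i = j
        · subst h; simp [hd]
        · simp [h]
      rw [sum_congr rfl fun j _ => e j, sum_sub_distrib, sum_sub_distrib, sum_ite_eq,
        if_pos (mem_univ _), ho, hq, sum_const, card_univ, nsmul_eq_mul, hk, hnn]
      ring
    have hcount : ∀ i, ∑ j, (if j = i then 0 else Nn W i j) = 2 * k * (n - 1 - k) := by
      intro i
      have e : ∀ j, (if j = i then 0 else Nn W i j) =
          ∑ l, (T l i - T l j) ^ 2 - 2 * T i j := by
        intro j
        by_cases h : j = i
        · subst h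
          simp [hT]
        · rw [if_neg h]
          have h3 := sum_ite_pair (fun l => (T l i - T l j) ^ 2) (i := i) (j := j) (Ne.symm h)
          have h4 : Nn W i j = ∑ l, (if l = i ∨ l = j then 0 else (T l i - T l j) ^ 2) := by
            unfold Nn
            apply sum_congr rfl
            intro l _
            by_cases hl : l = i ∨ l = j
            · rw [if_pos hl, if_pos hl]
            · rw [if_neg hl, if_neg hl]
              push Not at hl
              simp only [hT]
              rw [if_neg hl.1, if_neg hl.2]
              ring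
          rw [h4, h3]
          have h5 : T i i = 0 := by simp [hT]
          have h6 : T j j = 0 := by simp [hT]
          have h7 := hTsq i j
          simp only [h5, h6]
          rw [hTs j i]
          linear_combination -2 * h7
      rw [sum_congr rfl fun j _ => e j, sum_sub_distrib, ← mul_sum, hrow]
      have h3 : ∑ j, ∑ l, (T l i - T l j) ^ 2 =
          ∑ j, (∑ l, T i l - 2 * ∑ l, T i l * T l j + ∑ l, T l j) := by
        apply sum_congr rfl
        intro j _
        rw [mul_sum, ← sum_sub_distrib, ← sum_add_distrib]
        apply sum_congr rfl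
        intro l _
        have h7 := hTsq l i
        have h8 := hTsq l j
        rw [hTs i l]
        linear_combination h7 + h8
      have h4 : ∑ j, ∑ l, T i l * T l j = k * k := by
        rw [sum_comm]
        have : ∀ l, ∑ j, T i l * T l j = T i l * k := by
          intro l; rw [← mul_sum, hrow]
        rw [sum_congr rfl fun l _ => this l, ← sum_mul, hrow]
      have h5 : ∑ j, ∑ l, T l j = n * k := by
        have : ∀ j, ∑ l, T l j = k := by
          intro j; rw [← hrow j]; exact sum_congr rfl fun l _ => hTs l j
        rw [sum_congr rfl fun j _ => this j, sum_const, card_univ, nsmul_eq_mul]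
      rw [h3, sum_add_distrib, sum_sub_distrib, ← mul_sum, h4, h5, hrow, sum_const, card_univ,
        nsmul_eq_mul]
      ring
    have hle : 2 * k * (n - 1 - k) ≤ 2 * (n - 1) := by
      rw [← hcount a]
      have h3 : ∑ j, (if j = a then 0 else Nn W a j) ≤ ∑ j, (if j = a then (0 : ℤ) else 2) := by
        apply sum_le_sum
        intro j _
        split_ifs with h
        · exact le_refl _
        · rcases hN a j (Ne.symm h) with h1 | h1 <;> omega
      refine h3.trans (le_of_eq ?_)
      have e : ∀ j, (if j = a then (0 : ℤ) else 2) = 2 - (if j = a then 2 else 0) := by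
        intro j; split_ifs <;> ring
      rw [sum_congr rfl fun j _ => e j, sum_sub_distrib, sum_ite_eq', if_pos (mem_univ _),
        sum_const, card_univ, nsmul_eq_mul, hnn]
      ring
    -- both values occur
    have hge : 2 ≤ 2 * k * (n - 1 - k) := by
      rw [← hcount a, ← hNab]
      have : (if b = a then 0 else Nn W a b) = Nn W a b := if_neg (Ne.symm hab)
      rw [← this]
      exact single_le_sum (f := fun j => if j = a then 0 else Nn W a j)
        (fun j _ => by split_ifs; exacts [le_refl _, Nn_nonneg _ _ _]) (mem_univ b)
    have hk0 : 0 ≤ k := by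
      rw [← hrow a]; exact sum_nonneg fun j _ => by rcases hT01 a j with h | h <;> omega
    have hk1 : 1 ≤ k := by
      rcases hk0.eq_or_lt with h | h
      · rw [← h] at hge; omega
      · omega
    have hkb1 : 1 ≤ n - 1 - k := by
      by_contra hlt
      push Not at hlt
      have : k * (n - 1 - k) ≤ 0 := mul_nonpos_of_nonneg_of_nonpos hk0 (by omega)
      nlinarith
    -- both values of `W` occur
    have hex1 : ∃ i j, i ≠ j ∧ W i j = t + 1 := by
      by_contra hno
      push Not at hno
      have : ∑ j, T a j = 0 := by
        apply sum_eq_zero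
        intro j _
        by_cases h : a = j
        · simp [hT, h]
        · have h1 := hW a j h
          have h3 := hno a j h
          simp only [hT, if_neg h]
          omega
      rw [hrow] at this
      omega
    have hex0 : ∃ i j, i ≠ j ∧ W i j = t := by
      by_contra hno
      push Not at hno
      have h3 : ∀ j, T a j = 1 - (if a = j then 1 else 0) := by
        intro j
        by_cases h : a = j
        · simp [hT, h]
        · have h1 := hW a j h
          have h3 := hno a j h
          simp only [hT, if_neg h]
          omega
      have : ∑ j, T a j = n - 1 := by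
        rw [sum_congr rfl fun j _ => h3 j, sum_sub_distrib, sum_ite_eq, if_pos (mem_univ _),
          sum_const, card_univ, nsmul_eq_mul, hnn]
        ring
      rw [hrow] at this
      omega
    have ht0 : 0 ≤ t := by
      obtain ⟨i, j, -, h⟩ := hex0
      rw [← h]; exact h0 i j
    have ht1 : t ≤ 1 := by
      obtain ⟨i, j, -, h⟩ := hex1
      have := h2 i j
      omega
    have hcase : k = 1 ∨ n - 1 - k = 1 ∨ (k = 2 ∧ n - 1 - k = 2) := by
      by_contra hno
      push Not at hno
      obtain ⟨c1, c2, c3⟩ := hno
      have h3 : 2 ≤ k := by omega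
      have h4 : 2 ≤ n - 1 - k := by omega
      have h5 : k * (n - 1 - k) ≤ n - 1 := by nlinarith
      set m := n - 1 - k with hm
      have h6 : n - 1 = m + k := by rw [hm]; ring
      rw [h6] at h5
      by_cases h7 : k = 2
      · have := c3 h7
        have h8 : 3 ≤ m := by omega
        rw [h7] at h5
        omega
      · have h8 : 3 ≤ k := by omega
        nlinarith
    rcases hcase with h | h | ⟨h, h'⟩
    · -- `k = 1`
      have ht : t = 1 := by
        rcases lt_or_ge t 1 with h3 | h3
        · have : t = 0 := by omega
          rw [this] at hk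
          omega
        · omega
      right; left
      refine ⟨fun i j hij => ?_, fun i => ?_⟩
      · rcases hW i j hij with h3 | h3 <;> omega
      · rw [hq]
        rw [ht] at hk
        omega
    · left
      have ht : t = 0 := by
        rcases lt_or_ge 0 t with h3 | h3
        · have : t = 1 := by omega
          rw [this] at hk
          omega
        · omega
      refine ⟨fun i j hij => ?_, fun i => ?_⟩
      · rcases hW i j hij with h3 | h3 <;> omega
      · rw [hq]
        rw [ht] at hk
        omega
    · right; right
      have hn5 : n = 5 := by omega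
      refine ⟨by rw [hnn] at hn5; exact_mod_cast hn5, ⟨a, b, hab, ?_⟩, ?_⟩
      · unfold lhs
        rw [hNab, hq, hq]
        have e : (2 * (q : ℝ) + W a b - c) = W a b - g := by rw [hg]; ring
        rw [e, ht]
        rcases hW a b hab with h3 | h3 <;> rw [h3] <;> push_cast <;> ring
      · rcases lt_or_ge t 1 with h3 | h3
        · left
          have ht : t = 0 := by omega
          rw [ht, hn5, h] at hk
          refine ⟨fun i j hij => ?_, fun i => ?_⟩
          · rcases hW i j hij with h3 | h3 <;> omega
          · rw [hq]; omega
        · right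
          have ht : t = 1 := by omega
          rw [ht, hn5, h] at hk
          refine ⟨fun i j hij => ?_, fun i => ?_⟩
          · rcases hW i j hij with h3 | h3 <;> omega
          · rw [hq]; omega
  · -- case A
    set t : ℤ := round g with ht
    have htg : |g - t| < 1 / 2 := by
      refine lt_of_le_of_ne (abs_sub_round g) ?_
      intro h
      rcases abs_eq (by norm_num : (0 : ℝ) ≤ 1 / 2) |>.1 h with h1 | h1
      · exact hhalf ⟨t, by linarith⟩
      · exact hhalf ⟨t - 1, by push_cast; linarith⟩
    have hW2 : ∀ i j, i ≠ j → Nn W i j = 2 → W i j = t := by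
      intro i j hij h
      have h1 := HB i j hij
      rw [h] at h1
      push_cast at h1
      have h3 : ((W i j : ℝ) - g) ^ 2 ≤ (1 / 2) ^ 2 := by linarith
      have h4 := abs_le_of_sq_le_sq h3 (by norm_num)
      rw [abs_le] at h4
      rw [abs_lt] at htg
      have h5 : ((t : ℝ) - 1) < W i j := by linarith [h4.1, htg.1, htg.2]
      have h6 : (W i j : ℝ) < t + 1 := by linarith [h4.2, htg.1, htg.2]
      have h7 : t - 1 < W i j := by exact_mod_cast h5
      have h8 : W i j < t + 1 := by exact_mod_cast h6
      omega
    set T : V → V → ℤ := fun i j => if i = j then 0 else W i j - t with hT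
    have hTd : ∀ i, T i i = 0 := by intro i; simp [hT]
    have hTs : ∀ i j, T i j = T j i := by
      intro i j
      simp only [hT]
      by_cases h : i = j
      · simp [h]
      · rw [if_neg h, if_neg (Ne.symm h), hs]
    have hTne : ∀ i j, i ≠ j → T i j = W i j - t := by
      intro i j h; simp only [hT]; rw [if_neg h]
    have hTN : ∀ i j, T i j ≠ 0 → Nn W i j = 0 := by
      intro i j h
      have hij : i ≠ j := by rintro rfl; exact h (hTd i)
      rcases hN i j hij with h1 | h1
      · exact h1
      · exfalso
        have := hW2 i j hij h1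
        rw [hTne i j hij] at h
        omega
    -- twins
    have htwin : ∀ i k l, T i k ≠ 0 → l ≠ i → l ≠ k → T i l = T k l := by
      intro i k l h hli hlk
      have := Nn_zero (hTN i k h) l hli hlk
      rw [hTs i l, hTs k l, hTne l i hli, hTne l k hlk, this]
    have htau : ∀ i k l, T i k ≠ 0 → T i l ≠ 0 → T i k = T i l := by
      intro i k l hk hl
      by_cases hkl : k = l
      · rw [hkl]
      have hki : k ≠ i := by rintro rfl; exact hk (hTd k)
      have hli : l ≠ i := by rintro rfl; exact hl (hTd l)
      have h1 := htwin i k l hk hli (Ne.symm hkl)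
      have h3 := htwin i l k hl hki hkl
      rw [h1, h3, hTs]
    set k : ℤ := 2 * q - t * (n - 1) with hk
    have hrow : ∀ i, ∑ j, T i j = k := by
      intro i
      have e : ∀ j, T i j = W i j - (t - (if i = j then t else 0)) := by
        intro j
        simp only [hT]
        by_cases h : i = j
        · subst h; simp [hd]
        · simp [h]
      rw [sum_congr rfl fun j _ => e j, sum_sub_distrib, sum_sub_distrib, sum_ite_eq,
        if_pos (mem_univ _), ho, hq, sum_const, card_univ, nsmul_eq_mul, hk, hnn]
      ring
    -- the sum of the squares of a row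
    have hsq : ∀ i l, T i l ≠ 0 → ∑ j, T i j ^ 2 = T i l * k := by
      intro i l hl
      rw [← hrow i, mul_sum]
      apply sum_congr rfl
      intro j _
      by_cases h : T i j = 0
      · rw [h]; ring
      · rw [htau i l j hl h]; ring
    have hsqpos : ∀ i l, T i l ≠ 0 → 0 < T i l * k := by
      intro i l hl
      rw [← hsq i l hl]
      have : 0 < T i l ^ 2 := by positivity
      exact lt_of_lt_of_le this (single_le_sum (f := fun j => T i j ^ 2)
        (fun j _ => sq_nonneg _) (mem_univ l))
    have hTab : T a b = 0 := by
      by_contra h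
      exact hNab0 (hTN a b h)
    by_cases hk0 : k = 0
    · exfalso
      have hzero : ∀ i j, T i j = 0 := by
        intro i j
        by_contra h
        have := hsqpos i j h
        rw [hk0] at this
        simp at this
      apply hNab0
      unfold Nn
      apply sum_eq_zero
      intro l _
      split_ifs with h
      · rfl
      · push Not at h
        have e1 := hzero l a
        have e2 := hzero l b
        rw [hTne l a h.1] at e1
        rw [hTne l b h.2] at e2
        have : W l a - W l b = 0 := by omega
        rw [this]; ring
    have hexn : ∀ i, ∃ l, T i l ≠ 0 := by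
      intro i
      by_contra hno
      push Not at hno
      apply hk0
      rw [← hrow i]
      exact sum_eq_zero fun j _ => hno j
    obtain ⟨la, hla⟩ := hexn a
    obtain ⟨lb, hlb⟩ := hexn b
    have hsum2 : T a la * k + T b lb * k = 2 := by
      rw [← hsq a la hla, ← hsq b lb hlb, ← hNab]
      unfold Nn
      have h3 := sum_ite_pair (fun l => T a l ^ 2 + T b l ^ 2) hab
      simp only [hTd, hTs b a, hTab] at h3
      rw [← sum_add_distrib]
      have h4 : ∑ l, (if l = a ∨ l = b then 0 else (W l a - W l b) ^ 2) =
          ∑ l, (if l = a ∨ l = b then 0 else (T a l ^ 2 + T b l ^ 2)) := by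
        apply sum_congr rfl
        intro l _
        by_cases hl : l = a ∨ l = b
        · rw [if_pos hl, if_pos hl]
        · rw [if_neg hl, if_neg hl]
          push Not at hl
          have e1 := hTne l a hl.1
          have e2 := hTne l b hl.2
          have e3 : W l a - W l b = T a l - T b l := by
            rw [hTs a l, hTs b l]; omega
          rw [e3]
          have e4 : T a l = 0 ∨ T b l = 0 := by
            by_contra hno
            push Not at hno
            -- `l` is adjacent to both
            have h5 : T l a ≠ 0 := by rw [hTs]; exact hno.1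
            have h6 := htwin l a b h5 (Ne.symm hl.2) hab.symm
            rw [hTab] at h6
            exact hno.2 (by rw [hTs]; exact h6)
          rcases e4 with e4 | e4 <;> rw [e4] <;> ring
      rw [h4, h3]
      ring
    have hone : T a la * k = 1 := by
      have h3 := hsqpos a la hla
      have h4 := hsqpos b lb hlb
      omega
    have hkk : k = 1 ∨ k = -1 := by
      have := Int.isUnit_iff.1 (IsUnit.of_mul_eq_one (T a la) (by rw [mul_comm]; exact hone))
      exact this
    have hTk : ∀ i j, T i j = 0 ∨ T i j = k := by
      intro i j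
      by_cases h : T i j = 0
      · exact Or.inl h
      right
      -- `T i j` divides `k`
      have h3 : T i j ∣ k := by
        rw [← hrow i]
        apply dvd_sum
        intro l _
        by_cases h4 : T i l = 0
        · rw [h4]; exact dvd_zero _
        · rw [htau i j l h h4]
      have h4 := hsqpos i j h
      rcases hkk with h5 | h5
      · rw [h5] at h3 h4 ⊢
        rcases Int.isUnit_iff.1 (isUnit_of_dvd_one h3) with h6 | h6
        · exact h6
        · omega
      · rw [h5] at h3 h4 ⊢
        rcases Int.isUnit_iff.1 (isUnit_of_dvd_one ((dvd_neg).1 h3)) with h6 | h6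
        · omega
        · exact h6
    have htW : W a b = t := by
      have := hTne a b hab
      omega
    have ht0 : 0 ≤ t := by rw [← htW]; exact h0 a b
    have ht2 : t ≤ 2 := by rw [← htW]; exact h2 a b
    have htt : t = 1 := by
      rcases hkk with h5 | h5
      · rw [h5] at hk
        by_contra hne
        have : t = 0 ∨ t = 2 := by omega
        rcases this with h6 | h6 <;> rw [h6] at hk <;> omega
      · rw [h5] at hk
        by_contra hne
        have : t = 0 ∨ t = 2 := by omega
        rcases this with h6 | h6 <;> rw [h6] at hk <;> omega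
    rcases hkk with h5 | h5
    · right; left
      refine ⟨fun i j hij => ?_, fun i => ?_⟩
      · have h6 := hTk i j
        rw [hTne i j hij] at h6
        omega
      · rw [hq]
        rw [htt] at hk
        omega
    · left
      refine ⟨fun i j hij => ?_, fun i => ?_⟩
      · have h6 := hTk i j
        rw [hTne i j hij] at h6
        omega
      · rw [hq]
        rw [htt] at hk
        omega

end Pool.Agent.SP97
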